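import Mathlib

set_option autoImplicit false

namespace Pool.Agent.Results.MP_d14d1f_al.WreathCounterexample

/-- The wreath product of `ZMod 105` by the symmetric group on four points. -/
@[ext] structure W where
  v : Fin 4 → ZMod 105
  s : Equiv.Perm (Fin 4)

namespace W

instance : Mul W := ⟨fun a b => ⟨fun i => a.v i + b.v (a.s⁻¹ i), a.s * b.s⟩⟩
instance : One W := ⟨⟨0, 1⟩⟩
instance : Inv W := ⟨fun a => ⟨fun i => - a.v (a.s i), a.s⁻¹⟩⟩

@[simp] theorem mul_v (a b : W) (i : Fin 4) : (a * b).v i = a.v i + b.v (a.s⁻¹ i) := rfl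
@[simp] theorem mul_s (a b : W) : (a * b).s = a.s * b.s := rfl
@[simp] theorem one_v (i : Fin 4) : (1 : W).v i = 0 := rfl
@[simp] theorem one_s : (1 : W).s = 1 := rfl
@[simp] theorem inv_v (a : W) (i : Fin 4) : (a⁻¹).v i = - a.v (a.s i) := rfl
@[simp] theorem inv_s (a : W) : (a⁻¹).s = a.s⁻¹ := rfl

instance : Group W := Group.ofLeftAxioms
  (by
    intro a b c
    ext i
    · simp [add_assoc, Equiv.Perm.mul_apply]
    · simp [mul_assoc])
  (by
    intro a
    ext i
    · simp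
    · simp)
  (by
    intro a
    ext i
    · simp
    · simp)

instance : Finite W :=
  Finite.of_injective (fun a : W => (a.v, a.s)) (by
    intro a b h
    simp only [Prod.mk.injEq] at h
    exact W.ext h.1 h.2)

/-- Embedding of the base group. -/
def base : Multiplicative (Fin 4 → ZMod 105) →* W where
  toFun f := ⟨Multiplicative.toAdd f, 1⟩
  map_one' := rfl
  map_mul' f g := by
    ext i
    · simp
    · simp

/-- Embedding of the top group. -/
def top : Equiv.Perm (Fin 4) →* W where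
  toFun s := ⟨0, s⟩
  map_one' := rfl
  map_mul' f g := by
    ext i
    · simp
    · simp

/-- element of the base -/
def b (f : Fin 4 → ZMod 105) : W := ⟨f, 1⟩

theorem b_add (f g : Fin 4 → ZMod 105) : b (f + g) = b f * b g := by
  ext i
  · simp [b]
  · simp [b]

theorem b_zsmul (f : Fin 4 → ZMod 105) (k : ℤ) : b (k • f) = b f ^ k := by
  have := map_zpow base (Multiplicative.ofAdd f) k
  rw [← ofAdd_zsmul] at this
  exact this

theorem b_nsmul (f : Fin 4 → ZMod 105) (k : ℕ) : b (k • f) = b f ^ k := by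
  have := map_pow base (Multiplicative.ofAdd f) k
  rw [← ofAdd_nsmul] at this
  exact this

theorem conj_b (g : W) (f : Fin 4 → ZMod 105) :
    g * b f * g⁻¹ = b (fun i => f (g.s⁻¹ i)) := by
  ext i
  · simp [b]
  · simp [b]

/-- An element commutes with a base element iff its permutation part preserves the vector. -/
theorem commute_b_iff (g : W) (f : Fin 4 → ZMod 105) :
    Commute (b f) g ↔ ∀ i, f (g.s⁻¹ i) = f i := by
  constructor
  · intro h i
    have h1 : g * b f * g⁻¹ = b f := by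
      rw [← h.eq, mul_assoc, mul_inv_cancel, mul_one]
    rw [conj_b] at h1
    exact congrFun (congrArg W.v h1) i
  · intro h
    have h1 : g * b f * g⁻¹ = b f := by
      rw [conj_b]
      congr 1
      exact funext h
    show b f * g = g * b f
    calc b f * g = (g * b f * g⁻¹) * g := by rw [h1]
      _ = g * b f := by group

end W

open W

/-- The vector of the special element. -/
def a : Fin 4 → ZMod 105 := ![15, 15, 21, 35]

/-- The special element. -/
def c : W := ⟨a, Equiv.swap 0 1⟩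

theorem c_eq : c = b a * top (Equiv.swap 0 1) := by
  ext i
  · simp [c, b, top]
  · simp [c, b, top]

theorem a_swap : ∀ i, a ((Equiv.swap (0 : Fin 4) 1)⁻¹ i) = a i := by decide

theorem c_sq : c ^ 2 = b ((2 : ℕ) • a) := by
  rw [pow_two]
  ext i
  · show a i + a ((Equiv.swap (0 : Fin 4) 1)⁻¹ i) = _
    rw [a_swap]
    simp [b, two_mul]
  · simp [c, b]

theorem c_pow_two_mul (k : ℕ) : c ^ (2 * k) = b ((k * 2) • a) := by
  rw [pow_mul, c_sq, ← b_nsmul, ← mul_nsmul']

theorem c70 : c ^ 70 = b ![0, 0, 0, 35] := by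
  rw [show (70 : ℕ) = 2 * 35 from rfl, c_pow_two_mul]
  congr 1
  decide

theorem c42 : c ^ 42 = b ![0, 0, 42, 0] := by
  rw [show (42 : ℕ) = 2 * 21 from rfl, c_pow_two_mul]
  congr 1
  decide

theorem c30 : c ^ 30 = b ![30, 30, 0, 0] := by
  rw [show (30 : ℕ) = 2 * 15 from rfl, c_pow_two_mul]
  congr 1
  decide

/-- A transposition of four points fixes `3`, or fixes `2`, or is `(2 3)`. -/
theorem key_perm : ∀ t : Equiv.Perm (Fin 4),
    (t * Equiv.swap 0 1 * t⁻¹ : Equiv.Perm (Fin 4)) 3 = 3 ∨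
    (t * Equiv.swap 0 1 * t⁻¹ : Equiv.Perm (Fin 4)) 2 = 2 ∨
    (t * Equiv.swap 0 1 * t⁻¹ : Equiv.Perm (Fin 4)) = Equiv.swap 2 3 := by
  decide

theorem fix3 : ∀ t : Equiv.Perm (Fin 4), t 3 = 3 → ∀ i : Fin 4,
    (![0, 0, 0, 35] : Fin 4 → ZMod 105) (t⁻¹ i) = (![0, 0, 0, 35] : Fin 4 → ZMod 105) i := by
  decide

theorem fix2 : ∀ t : Equiv.Perm (Fin 4), t 2 = 2 → ∀ i : Fin 4,
    (![0, 0, 42, 0] : Fin 4 → ZMod 105) (t⁻¹ i) = (![0, 0, 42, 0] : Fin 4 → ZMod 105) i := by
  decide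

theorem fix01 : ∀ i : Fin 4,
    (![30, 30, 0, 0] : Fin 4 → ZMod 105) ((Equiv.swap (2 : Fin 4) 3)⁻¹ i) =
      (![30, 30, 0, 0] : Fin 4 → ZMod 105) i := by
  decide

/-- `b f` is not central if some permutation moves `f`. -/
theorem not_central (f : Fin 4 → ZMod 105) (t : Equiv.Perm (Fin 4)) (i : Fin 4)
    (h : f (t⁻¹ i) ≠ f i) : b f ∉ Subgroup.center W := by
  intro hc
  rw [Subgroup.mem_center_iff] at hc
  have h1 : Commute (b f) (top t) := (hc (top t)).symm
  rw [commute_b_iff] at h1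
  exact h (h1 i)

/-- Every conjugate of `c` commutes with a non-central power of `c`. -/
theorem key (g : W) : ∃ k : ℕ, Commute (c ^ k) (g * c * g⁻¹) ∧ c ^ k ∉ Subgroup.center W := by
  have hs : (g * c * g⁻¹).s = g.s * Equiv.swap 0 1 * g.s⁻¹ := rfl
  rcases key_perm g.s with h | h | h
  · refine ⟨70, ?_, ?_⟩
    · rw [c70, commute_b_iff, hs]
      exact fix3 _ h
    · rw [c70]
      exact not_central _ (Equiv.swap 0 3) 0 (by decide)
  · refine ⟨42, ?_, ?_⟩
    · rw [c42, commute_b_iff, hs]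
      exact fix2 _ h
    · rw [c42]
      exact not_central _ (Equiv.swap 0 2) 0 (by decide)
  · refine ⟨30, ?_, ?_⟩
    · rw [c30, commute_b_iff, hs, h]
      exact fix01
    · rw [c30]
      exact not_central _ (Equiv.swap 0 2) 0 (by decide)

set_option maxRecDepth 20000 in
/-- Normal subgroups containing `c` are everything. -/
theorem normal_top (N : Subgroup W) [hN : N.Normal] (hc : c ∈ N) : N = ⊤ := by
  have hperm : ∀ (f : Fin 4 → ZMod 105) (t : Equiv.Perm (Fin 4)), b f ∈ N →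
      b (fun i => f (t⁻¹ i)) ∈ N := by
    intro f t h
    have h1 := hN.conj_mem _ h (top t)
    rw [conj_b] at h1
    exact h1
  have h70 : b ![0, 0, 0, 35] ∈ N := by rw [← c70]; exact N.pow_mem hc 70
  have h42 : b ![0, 0, 42, 0] ∈ N := by rw [← c42]; exact N.pow_mem hc 42
  have h30 : b ![30, 30, 0, 0] ∈ N := by rw [← c30]; exact N.pow_mem hc 30
  have hadd : ∀ f g : Fin 4 → ZMod 105, b f ∈ N → b g ∈ N → b (f + g) ∈ N := by
    intro f g hf hg
    rw [b_add]
    exact N.mul_mem hf hg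
  have hsm : ∀ (k : ℕ) (f : Fin 4 → ZMod 105), b f ∈ N → b (k • f) ∈ N := by
    intro k f hf
    rw [b_nsmul]
    exact N.pow_mem hf k
  have e1 : b ![35, 0, 0, 0] ∈ N := by
    have := hperm _ (Equiv.swap 0 3) h70
    rwa [show (fun i => (![0, 0, 0, 35] : Fin 4 → ZMod 105) ((Equiv.swap (0 : Fin 4) 3)⁻¹ i)) =
      ![35, 0, 0, 0] by decide] at this
  have e2 : b ![42, 0, 0, 0] ∈ N := by
    have := hperm _ (Equiv.swap 0 2) h42
    rwa [show (fun i => (![0, 0, 42, 0] : Fin 4 → ZMod 105) ((Equiv.swap (0 : Fin 4) 2)⁻¹ i)) =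
      ![42, 0, 0, 0] by decide] at this
  have e3 : b ![30, 0, 30, 0] ∈ N := by
    have := hperm _ (Equiv.swap 1 2) h30
    rwa [show (fun i => (![30, 30, 0, 0] : Fin 4 → ZMod 105) ((Equiv.swap (1 : Fin 4) 2)⁻¹ i)) =
      ![30, 0, 30, 0] by decide] at this
  have e4 : b ![0, 30, 30, 0] ∈ N := by
    have := hperm _ (Equiv.swap 0 2) h30
    rwa [show (fun i => (![30, 30, 0, 0] : Fin 4 → ZMod 105) ((Equiv.swap (0 : Fin 4) 2)⁻¹ i)) =
      ![0, 30, 30, 0] by decide] at this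
  have e5 : b ![60, 0, 0, 0] ∈ N := by
    have := hadd _ _ (hadd _ _ h30 e3) (hsm 104 _ e4)
    rwa [show (![30, 30, 0, 0] : Fin 4 → ZMod 105) + ![30, 0, 30, 0] +
      (104 : ℕ) • ![0, 30, 30, 0] = ![60, 0, 0, 0] by decide] at this
  -- 1 = 60 * 2 + 42 * 8 + 35 * 2 modulo 105
  have e6 : b ![1, 0, 0, 0] ∈ N := by
    have := hadd _ _ (hadd _ _ (hsm 2 _ e5) (hsm 8 _ e2)) (hsm 2 _ e1)
    rwa [show (2 : ℕ) • (![60, 0, 0, 0] : Fin 4 → ZMod 105) + (8 : ℕ) • ![42, 0, 0, 0] +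
      (2 : ℕ) • ![35, 0, 0, 0] = ![1, 0, 0, 0] by decide] at this
  have e7 : b ![0, 1, 0, 0] ∈ N := by
    have := hperm _ (Equiv.swap 0 1) e6
    rwa [show (fun i => (![1, 0, 0, 0] : Fin 4 → ZMod 105) ((Equiv.swap (0 : Fin 4) 1)⁻¹ i)) =
      ![0, 1, 0, 0] by decide] at this
  have e8 : b ![0, 0, 1, 0] ∈ N := by
    have := hperm _ (Equiv.swap 0 2) e6
    rwa [show (fun i => (![1, 0, 0, 0] : Fin 4 → ZMod 105) ((Equiv.swap (0 : Fin 4) 2)⁻¹ i)) =
      ![0, 0, 1, 0] by decide] at this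
  have e9 : b ![0, 0, 0, 1] ∈ N := by
    have := hperm _ (Equiv.swap 0 3) e6
    rwa [show (fun i => (![1, 0, 0, 0] : Fin 4 → ZMod 105) ((Equiv.swap (0 : Fin 4) 3)⁻¹ i)) =
      ![0, 0, 0, 1] by decide] at this
  have hb : ∀ f : Fin 4 → ZMod 105, b f ∈ N := by
    intro f
    have h1 := hadd _ _ (hadd _ _ (hadd _ _ (hsm (f 0).val _ e6) (hsm (f 1).val _ e7))
      (hsm (f 2).val _ e8)) (hsm (f 3).val _ e9)
    have h2 : (f 0).val • (![1, 0, 0, 0] : Fin 4 → ZMod 105) + (f 1).val • ![0, 1, 0, 0] +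
      (f 2).val • ![0, 0, 1, 0] + (f 3).val • ![0, 0, 0, 1] = f := by
      funext i
      fin_cases i <;> simp [nsmul_eq_mul]
    rwa [h2] at h1
  have ht : top (Equiv.swap 0 1) ∈ N := by
    have h1 : top (Equiv.swap 0 1) = (b a)⁻¹ * c := by rw [c_eq]; group
    rw [h1]
    exact N.mul_mem (N.inv_mem (hb a)) hc
  have hswap : ∀ x y : Fin 4, x ≠ y → top (Equiv.swap x y) ∈ N := by
    intro x y hxy
    obtain ⟨t, ht1⟩ : ∃ t : Equiv.Perm (Fin 4), t * Equiv.swap 0 1 * t⁻¹ = Equiv.swap x y := by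
      revert x y; decide
    rw [← ht1, map_mul, map_mul, map_inv]
    exact hN.conj_mem _ ht _
  have htop : ∀ t : Equiv.Perm (Fin 4), top t ∈ N := by
    intro t
    induction t using Equiv.Perm.swap_induction_on with
    | one => rw [map_one]; exact N.one_mem
    | swap_mul f x y hxy ih => rw [map_mul]; exact N.mul_mem (hswap x y hxy) ih
  rw [eq_top_iff]
  intro g _
  have : g = b g.v * top g.s := by
    ext i
    · simp [b, top]
    · simp [b, top]
  rw [this]
  exact N.mul_mem (hb _) (htop _)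

/-- There are a finite group `G` and a conjugacy class `C` of `G` generating `G` such that for all
`c z ∈ C` some power of `c` commutes with `z` but is not central. -/
theorem result : ∃ (G : Type) (_ : Group G) (_ : Finite G) (C : Set G),
    C.Finite ∧ (∃ c : G, C = {x : G | ∃ g : G, g * c * g⁻¹ = x}) ∧ Subgroup.closure C = ⊤ ∧
    ∀ c ∈ C, ∀ z ∈ C, ∃ k : ℤ, Commute (c ^ k) z ∧ c ^ k ∉ Subgroup.center G := by
  refine ⟨W, inferInstance, inferInstance, {x : W | ∃ g : W, g * c * g⁻¹ = x}, Set.toFinite _,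
    ⟨c, rfl⟩, ?_, ?_⟩
  · have h1 : Subgroup.closure {x : W | ∃ g : W, g * c * g⁻¹ = x} = Subgroup.normalClosure {c} := by
      unfold Subgroup.normalClosure
      congr 1
      ext x
      rw [Group.conjugatesOfSet, Set.mem_iUnion₂]
      constructor
      · rintro ⟨g, hg⟩
        exact ⟨c, rfl, isConj_iff.2 ⟨g, hg⟩⟩
      · rintro ⟨y, hy, hx⟩
        rw [Set.mem_singleton_iff] at hy
        subst hy
        exact isConj_iff.1 hx
    rw [h1]
    exact normal_top _ (Subgroup.subset_normalClosure rfl)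
  · rintro _ ⟨g, rfl⟩ _ ⟨h, rfl⟩
    obtain ⟨k, hk1, hk2⟩ := key (g⁻¹ * h)
    refine ⟨(k : ℤ), ?_, ?_⟩
    · rw [zpow_natCast, conj_pow]
      have e : h * c * h⁻¹ = g * (g⁻¹ * h * c * (g⁻¹ * h)⁻¹) * g⁻¹ := by group
      rw [e]
      show _ * _ = _ * _
      have := hk1.eq
      calc g * c ^ k * g⁻¹ * (g * (g⁻¹ * h * c * (g⁻¹ * h)⁻¹) * g⁻¹)
          = g * (c ^ k * (g⁻¹ * h * c * (g⁻¹ * h)⁻¹)) * g⁻¹ := by group
        _ = g * ((g⁻¹ * h * c * (g⁻¹ * h)⁻¹) * c ^ k) * g⁻¹ := by rw [this]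
        _ = g * (g⁻¹ * h * c * (g⁻¹ * h)⁻¹) * g⁻¹ * (g * c ^ k * g⁻¹) := by group
    · rw [zpow_natCast, conj_pow]
      intro hcon
      apply hk2
      have := (inferInstance : (Subgroup.center W).Normal).conj_mem _ hcon g⁻¹
      rwa [show g⁻¹ * (g * c ^ k * g⁻¹) * g⁻¹⁻¹ = c ^ k by group] at this

end Pool.Agent.Results.MP_d14d1f_al.WreathCounterexample
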